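import Mathlib

/-!
Presentations of numerical semigroups given by a family of generators, and the gluing
`b * S + σ * ℕ`.
-/

namespace Pool.Agent.TH235.CIQ

open Finset

/-- value of a coefficient vector -/
def val {ι : Type} [Fintype ι] (s : ι → ℕ) (c : ι → ℕ) : ℕ := ∑ i, c i * s i

theorem val_add {ι : Type} [Fintype ι] (s : ι → ℕ) (c d : ι → ℕ) :
    val s (c + d) = val s c + val s d := by
  simp [val, add_mul, Finset.sum_add_distrib]

theorem val_zero {ι : Type} [Fintype ι] (s : ι → ℕ) : val s 0 = 0 := by simp [val]

/-- degree of a coefficient vector -/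
def deg {ι : Type} [Fintype ι] (c : ι → ℕ) : ℕ := ∑ i, c i

theorem deg_add {ι : Type} [Fintype ι] (c d : ι → ℕ) : deg (c + d) = deg c + deg d := by
  simp [deg, Finset.sum_add_distrib]

/-- The congruence generated by a finite set of pairs. -/
def cong {ι : Type} (R : Finset ((ι → ℕ) × (ι → ℕ))) : AddCon (ι → ℕ) :=
  addConGen (fun u v => (u, v) ∈ R)

/-- A family of generators `s` with a presentation having one relation less than generators, all
of whose sides have degree at least two, and such that the semigroup has finite complement. -/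
structure Good {ι : Type} [Fintype ι] (s : ι → ℕ) : Prop where
  pres : ∃ R : Finset ((ι → ℕ) × (ι → ℕ)), R.card + 1 = Fintype.card ι ∧
    (∀ p ∈ R, 2 ≤ deg p.1 ∧ 2 ≤ deg p.2 ∧ val s p.1 = val s p.2) ∧
    (∀ a b : ι → ℕ, val s a = val s b → cong R a b)
  pos : ∀ i, 0 < s i
  cofin : ∃ c : ℕ, ∀ n, c ≤ n → ∃ a, val s a = n

/-- membership of an integer in the semigroup generated by `s` -/
def InS {ι : Type} [Fintype ι] (s : ι → ℕ) (z : ℤ) : Prop := ∃ a, ((val s a : ℕ) : ℤ) = z

/-- A natural number that is zero or the sum of two nonzero elements. -/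
def Dec {ι : Type} [Fintype ι] (s : ι → ℕ) (z : ℕ) : Prop :=
  z = 0 ∨ ∃ a b, 0 < val s a ∧ 0 < val s b ∧ z = val s a + val s b

theorem deg_pos_of_val_pos {ι : Type} [Fintype ι] (s : ι → ℕ) (a : ι → ℕ) (h : 0 < val s a) :
    0 < deg a := by
  rcases Nat.eq_zero_or_pos (deg a) with h0 | h0
  · exfalso
    have h1 : ∀ i, a i = 0 := by
      intro i
      have := (Finset.sum_eq_zero_iff (s := (Finset.univ : Finset ι)) (f := a)).1 h0
      exact this i (Finset.mem_univ _)
    have : val s a = 0 := by simp [val, h1]
    omega
  · exact h0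

/-- extension by zero -/
def ext0 {ι : Type} : (ι → ℕ) →+ (Option ι → ℕ) where
  toFun c := fun o => o.elim 0 c
  map_zero' := by funext o; cases o <;> rfl
  map_add' a b := by funext o; cases o <;> rfl

/-- the unit vector at the new index -/
def en {ι : Type} [DecidableEq ι] : Option ι → ℕ := Pi.single none 1

/-- the new family of generators -/
def glue {ι : Type} (s : ι → ℕ) (b t : ℕ) : Option ι → ℕ := fun o => o.elim t (fun i => b * s i)

theorem val_ext0 {ι : Type} [Fintype ι] (s : ι → ℕ) (b t : ℕ) (c : ι → ℕ) :
    val (glue s b t) (ext0 c) = b * val s c := by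
  simp only [val, Fintype.sum_option, glue, ext0, AddMonoidHom.coe_mk, ZeroHom.coe_mk,
    Option.elim_none, Option.elim_some, zero_mul, zero_add, Finset.mul_sum]
  exact Finset.sum_congr rfl (fun i _ => by ring)

theorem val_en {ι : Type} [Fintype ι] [DecidableEq ι] (s : ι → ℕ) (b t n : ℕ) :
    val (glue s b t) (n • en) = n * t := by
  simp [val, Fintype.sum_option, glue, en, Pi.single_apply]

theorem deg_ext0 {ι : Type} [Fintype ι] (c : ι → ℕ) : deg (ext0 c) = deg c := by
  simp [deg, Fintype.sum_option, ext0]

theorem deg_en {ι : Type} [Fintype ι] [DecidableEq ι] (n : ℕ) : deg (n • (en : Option ι → ℕ)) = n := by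
  simp [deg, Fintype.sum_option, en, Pi.single_apply]

theorem decomp {ι : Type} [DecidableEq ι] (a : Option ι → ℕ) :
    a = ext0 (fun i => a (some i)) + (a none) • en := by
  funext o
  cases o with
  | none => simp [ext0, en]
  | some i => simp [ext0, en, Pi.single_apply]

/-- Membership in the glued semigroup. -/
theorem inS_glue {ι : Type} [Fintype ι] [DecidableEq ι] (s : ι → ℕ) (b t : ℕ) (hb : 0 < b)
    (hco : Nat.Coprime b t) (ct : ι → ℕ) (hct : val s ct = t) (z : ℤ) (r : ℤ) (hr0 : 0 ≤ r)
    (hrb : r < b) : InS (glue s b t) ((b : ℤ) * z + r * t) ↔ InS s z := by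
  constructor
  · rintro ⟨a, ha⟩
    rw [decomp a, val_add, val_ext0, val_en] at ha
    set u := val s (fun i => a (some i)) with hu
    set m := a none with hm
    -- b u + m t = b z + r t
    have h1 : ((b : ℤ) ∣ ((m : ℤ) - r) * t) := by
      refine ⟨z - u, ?_⟩
      push_cast at ha
      linarith
    have hco' : IsCoprime (b : ℤ) (t : ℤ) := Nat.isCoprime_iff_coprime.2 hco
    have h2 : (b : ℤ) ∣ (m : ℤ) - r := hco'.dvd_of_dvd_mul_right h1
    obtain ⟨q, hq⟩ := h2
    have hbz : (0 : ℤ) < b := by exact_mod_cast hb
    have hq0 : 0 ≤ q := by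
      by_contra hneg
      have h3 : q ≤ -1 := by omega
      have h4 : (b : ℤ) * q ≤ b * (-1) := mul_le_mul_of_nonneg_left h3 hbz.le
      have h5 : (0 : ℤ) ≤ m := by positivity
      linarith
    obtain ⟨k, rfl⟩ := Int.eq_ofNat_of_zero_le hq0
    refine ⟨(fun i => a (some i)) + k • ct, ?_⟩
    have h6 : val s (k • ct) = k * t := by
      rw [← hct]
      simp only [val, Pi.smul_apply, smul_eq_mul, Finset.mul_sum]
      exact Finset.sum_congr rfl (fun i _ => by ring)
    rw [val_add, h6]
    have h7 : (b : ℤ) * ((u : ℤ) + k * t) = b * z := by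
      have : (m : ℤ) = r + b * k := by linarith
      push_cast at ha
      rw [this] at ha
      linarith
    have h8 := mul_left_cancel₀ hbz.ne' h7
    push_cast
    exact h8
  · rintro ⟨a, ha⟩
    obtain ⟨n, rfl⟩ := Int.eq_ofNat_of_zero_le hr0
    refine ⟨ext0 a + n • en, ?_⟩
    rw [val_add, val_ext0, val_en, ← ha]
    push_cast
    ring

theorem good_glue {ι : Type} [Fintype ι] [DecidableEq ι] (s : ι → ℕ) (hs : Good s) (b t : ℕ)
    (hb : 2 ≤ b) (hco : Nat.Coprime b t) (x y : ι → ℕ) (hx : 0 < val s x) (hy : 0 < val s y)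
    (ht : t = val s x + val s y) : Good (glue s b t) := by
  classical
  obtain ⟨⟨R, hRc, hR, hRg⟩, hpos, c, hc⟩ := hs
  have hct : val s (x + y) = t := by rw [val_add, ht]
  have hdeg : 2 ≤ deg (x + y) := by
    rw [deg_add]
    have := deg_pos_of_val_pos s x hx
    have := deg_pos_of_val_pos s y hy
    omega
  have hcard_inj : Function.Injective (fun p : (ι → ℕ) × (ι → ℕ) => ((ext0 p.1, ext0 p.2) :
      (Option ι → ℕ) × (Option ι → ℕ))) := by
    rintro ⟨p1, p2⟩ ⟨q1, q2⟩ h
    simp only [Prod.mk.injEq] at h
    have e1 : p1 = q1 := by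
      funext i; exact congrFun h.1 (some i)
    have e2 : p2 = q2 := by
      funext i; exact congrFun h.2 (some i)
    rw [e1, e2]
  set R' : Finset ((Option ι → ℕ) × (Option ι → ℕ)) :=
    insert (b • en, ext0 (x + y)) (R.image (fun p => (ext0 p.1, ext0 p.2))) with hR'
  have hnew : (b • (en : Option ι → ℕ), ext0 (x + y)) ∉ R.image (fun p => (ext0 p.1, ext0 p.2)) := by
    intro hmem
    obtain ⟨p, _, hp⟩ := Finset.mem_image.1 hmem
    have h1 := congrArg Prod.fst hp
    have h2 := congrFun h1 none
    simp [ext0, en] at h2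
    omega
  refine ⟨⟨R', ?_, ?_, ?_⟩, ?_, ?_⟩
  · rw [hR', Finset.card_insert_of_notMem hnew, Finset.card_image_of_injective _ hcard_inj, hRc,
      Fintype.card_option]
  · intro p hp
    rw [hR', Finset.mem_insert] at hp
    rcases hp with rfl | hp
    · refine ⟨?_, ?_, ?_⟩
      · rw [deg_en]; exact hb
      · rw [deg_ext0]; exact hdeg
      · rw [val_en, val_ext0, hct]
    · obtain ⟨q, hq, rfl⟩ := Finset.mem_image.1 hp
      obtain ⟨h1, h2, h3⟩ := hR q hq
      refine ⟨?_, ?_, ?_⟩
      · simp only; rw [deg_ext0]; exact h1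
      · simp only; rw [deg_ext0]; exact h2
      · simp only; rw [val_ext0, val_ext0, h3]
  · -- generation
    have hext : ∀ u v : ι → ℕ, cong R u v → cong R' (ext0 u) (ext0 v) := by
      intro u v huv
      have hle : cong R ≤ (cong R').comap ext0 ext0.map_add := by
        unfold cong
        rw [AddCon.addConGen_le]
        intro p q hpq
        show addConGen _ (ext0 p) (ext0 q)
        apply AddConGen.Rel.of
        rw [hR', Finset.mem_insert]
        right
        exact Finset.mem_image.2 ⟨(p, q), hpq, rfl⟩
      exact hle huv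
    have hrel : cong R' (b • en) (ext0 (x + y)) := by
      apply AddConGen.Rel.of
      rw [hR', Finset.mem_insert]
      left; rfl
    have hrelq : ∀ q : ℕ, cong R' (q • (b • (en : Option ι → ℕ))) (q • ext0 (x + y)) := by
      intro q
      exact (cong R').nsmul q hrel
    -- normal form
    have hnf : ∀ a : Option ι → ℕ, cong R' a
        (ext0 ((fun i => a (some i)) + (a none / b) • (x + y)) + (a none % b) • en) := by
      intro a
      have h1 : a = ext0 (fun i => a (some i)) + ((a none / b) • (b • en) + (a none % b) • en) := by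
        conv_lhs => rw [decomp a]
        congr 1
        rw [smul_smul, ← add_smul]
        congr 1
        rw [mul_comm, Nat.div_add_mod]
      have h2 : cong R' (ext0 (fun i => a (some i)) + ((a none / b) • (b • en) + (a none % b) • en))
          (ext0 (fun i => a (some i)) + ((a none / b) • ext0 (x + y) + (a none % b) • en)) :=
        (cong R').add ((cong R').refl _) ((cong R').add (hrelq _) ((cong R').refl _))
      rw [← h1] at h2
      have h3 : ext0 ((fun i => a (some i)) + (a none / b) • (x + y)) + (a none % b) • en =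
          ext0 (fun i => a (some i)) + ((a none / b) • ext0 (x + y) + (a none % b) • en) := by
        rw [map_add, map_nsmul, add_assoc]
      rw [h3]
      exact h2
    intro u v huv
    have hu := hnf u
    have hv := hnf v
    have hval : ∀ a : Option ι → ℕ, val (glue s b t) a =
        b * val s ((fun i => a (some i)) + (a none / b) • (x + y)) + (a none % b) * t := by
      intro a
      conv_lhs => rw [decomp a]
      rw [val_add, val_ext0, val_en, val_add]
      have h6 : val s ((a none / b) • (x + y)) = (a none / b) * t := by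
        rw [← hct]
        simp only [val, Pi.smul_apply, smul_eq_mul, Finset.mul_sum]
        exact Finset.sum_congr rfl (fun i _ => by ring)
      rw [h6]
      have h7 := Nat.div_add_mod (a none) b
      conv_lhs => rw [← h7]
      ring
    rw [hval u, hval v] at huv
    have hb0 : 0 < b := by omega
    have hmod : u none % b = v none % b := by
      have h1 : (u none % b) * t ≡ (v none % b) * t [MOD b] := by
        have h2 : (b * val s ((fun i => u (some i)) + (u none / b) • (x + y)) + (u none % b) * t) % b
            = (b * val s ((fun i => v (some i)) + (v none / b) • (x + y)) + (v none % b) * t) % b := by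
          rw [huv]
        rwa [Nat.mul_add_mod, Nat.mul_add_mod] at h2
      have h3 : (u none % b) ≡ (v none % b) [MOD b] :=
        Nat.ModEq.cancel_right_of_coprime hco h1
      have h4 : (u none % b) % b = (v none % b) % b := h3
      rwa [Nat.mod_mod, Nat.mod_mod] at h4
    rw [hmod] at huv
    have h5 : val s ((fun i => u (some i)) + (u none / b) • (x + y)) =
        val s ((fun i => v (some i)) + (v none / b) • (x + y)) := by
      have := Nat.add_right_cancel huv
      exact Nat.eq_of_mul_eq_mul_left hb0 this
    have h6 := hext _ _ (hRg _ _ h5)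
    have h7 : cong R' (ext0 ((fun i => u (some i)) + (u none / b) • (x + y)) + (u none % b) • en)
        (ext0 ((fun i => v (some i)) + (v none / b) • (x + y)) + (v none % b) • en) := by
      rw [hmod]
      exact (cong R').add h6 ((cong R').refl _)
    exact (cong R').trans hu ((cong R').trans h7 ((cong R').symm hv))
  · intro o
    cases o with
    | none => simp only [glue, Option.elim_none]; omega
    | some i =>
      simp only [glue, Option.elim_some]
      exact Nat.mul_pos (by omega) (hpos i)
  · -- cofinite
    refine ⟨b * c + b * t, fun n hn => ?_⟩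
    -- choose r < b with r t ≡ n mod b
    have hb0 : 0 < b := by omega
    obtain ⟨r, hr⟩ : ∃ r : ℕ, r < b ∧ r * t ≡ n [MOD b] := by
      have hco' : Nat.Coprime t b := hco.symm
      have h1 := Nat.exists_mul_mod_eq_of_coprime n hco' hb0.ne'
      obtain ⟨r, hr, hr2⟩ := h1
      refine ⟨r, hr, ?_⟩
      rw [Nat.ModEq, mul_comm]
      exact hr2
    obtain ⟨hrb, hrm⟩ := hr
    have hrt : r * t ≤ b * t := Nat.mul_le_mul_right t hrb.le
    have hle : r * t ≤ n := by nlinarith [Nat.zero_le (b * c)]
    have hdvd : b ∣ n - r * t := (Nat.modEq_iff_dvd' hle).1 hrm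
    obtain ⟨z, hz⟩ := hdvd
    have hzc : c ≤ z := by
      have h1 : b * c ≤ b * z := by omega
      exact Nat.le_of_mul_le_mul_left h1 hb0
    obtain ⟨a, ha⟩ := hc z hzc
    refine ⟨ext0 a + r • en, ?_⟩
    rw [val_add, val_ext0, val_en, ha]
    omega

end Pool.Agent.TH235.CIQ
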