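import Pool.Agent.TH235.NF
import Pool.Agent.TH235.Glue

/-!
Elimination of nested floor functions by gluing.
-/

namespace Pool.Agent.TH235.CIQ

/-- The weighted sum of a list of functions at `x`. -/
def wsum (L : List (ℤ → ℤ)) (σ : List ℕ) (x : ℤ) : ℤ :=
  (List.zipWith (fun (s : ℕ) (f : ℤ → ℤ) => (s : ℤ) * f x) σ L).sum

theorem wsum_nil (x : ℤ) : wsum [] [] x = 0 := rfl

theorem wsum_cons (f : ℤ → ℤ) (L : List (ℤ → ℤ)) (s : ℕ) (σ : List ℕ) (x : ℤ) :
    wsum (f :: L) (s :: σ) x = (s : ℤ) * f x + wsum L σ x := by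
  simp [wsum]

theorem wsum_map (L : List (ℤ → ℤ)) (b : ℕ) (x : ℤ) : ∀ σ : List ℕ,
    wsum L (σ.map (fun s => b * s)) x = (b : ℤ) * wsum L σ x := by
  induction L with
  | nil => intro σ; cases σ <;> simp [wsum]
  | cons f L ih =>
    intro σ
    cases σ with
    | nil => simp [wsum]
    | cons s σ =>
      rw [List.map_cons, wsum_cons, wsum_cons, ih]
      push_cast; ring

/-- Simultaneous realisation of a list of functions on the test set `X ∪ {F}`. -/
def Goal (X : Finset ℕ) (F : ℕ) (L : List (ℤ → ℤ)) : Prop :=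
  ∃ (ι : Type) (_ : Fintype ι) (_ : DecidableEq ι) (s : ι → ℕ) (d : ℤ) (σ : List ℕ), Good s ∧
    σ.length = L.length ∧ (∀ t ∈ σ, Dec s t) ∧
    (∀ x ∈ X, InS s (d * (x : ℤ) + wsum L σ (x : ℤ))) ∧
    ¬ InS s (d * (F : ℤ) + wsum L σ (F : ℤ))

theorem dec_glue {ι : Type} [Fintype ι] [DecidableEq ι] (s : ι → ℕ) (b t : ℕ) (hb : 0 < b) (z : ℕ)
    (hz : Dec s z) : Dec (glue s b t) (b * z) := by
  rcases hz with rfl | ⟨x, y, hx, hy, rfl⟩
  · left; simp
  · right
    refine ⟨ext0 x, ext0 y, ?_, ?_, ?_⟩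
    · rw [val_ext0]; exact Nat.mul_pos hb hx
    · rw [val_ext0]; exact Nat.mul_pos hb hy
    · rw [val_ext0, val_ext0]; ring

theorem goal_gate (X : Finset ℕ) (hX : ∀ x ∈ X, 0 < x) (F : ℕ) (hF : 0 < F) (g : ℤ → ℤ) (b : ℕ)
    (hb : 0 < b) (L : List (ℤ → ℤ)) (h : Goal X F ((fun x => g x / (b : ℤ)) :: L)) :
    Goal X F (g :: L) := by
  classical
  obtain ⟨ι, _, _, s, d, σ, hs, hlen, hdec, hin, hout⟩ := h
  match σ, hlen with
  | σ0 :: σ, hlen =>
  simp only [List.length_cons, Nat.add_right_cancel_iff] at hlen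
  simp only [wsum_cons] at hin hout
  rcases hdec σ0 (List.mem_cons_self) with h0 | ⟨x0, y0, hx0, hy0, hσ0⟩
  · -- unused gate
    refine ⟨ι, inferInstance, inferInstance, s, d, 0 :: σ, hs, by simp [hlen], ?_, ?_, ?_⟩
    · intro t ht
      rcases List.mem_cons.1 ht with rfl | ht
      · left; rfl
      · exact hdec t (List.mem_cons_of_mem _ ht)
    · intro x hx
      have := hin x hx
      rw [wsum_cons]
      rw [h0] at this
      simpa using this
    · rw [wsum_cons]
      rw [h0] at hout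
      simpa using hout
  · -- the set of test points
    set Y : Finset ℕ := insert F X with hY
    have hYpos : ∀ x ∈ Y, 0 < x := by
      intro x hx
      rcases Finset.mem_insert.1 hx with rfl | hx
      · exact hF
      · exact hX x hx
    set t : ℕ → ℤ := fun x => g (x : ℤ) / (b : ℤ) with ht
    set K : ℕ := ∑ x ∈ Y, (t x).natAbs with hK
    have hKt : ∀ x ∈ Y, t x ≤ (K : ℤ) * x := by
      intro x hx
      have h1 : (t x).natAbs ≤ K :=
        Finset.single_le_sum (f := fun x => (t x).natAbs) (fun _ _ => Nat.zero_le _) hx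
      have h2 : t x ≤ K := by omega
      have h3 : (1 : ℤ) ≤ x := by exact_mod_cast hYpos x hx
      nlinarith [Int.natCast_nonneg K]
    have hσpos : 0 < σ0 := by omega
    have hσ2 : 2 ≤ σ0 := by omega
    set N' : ℕ := ∑ x ∈ Y, ((K : ℤ) * x - t x).natAbs + 1 with hN'
    set N : ℕ := σ0 * N' with hN
    have hN2 : 2 ≤ N := by
      have : 1 ≤ N' := by omega
      nlinarith
    have hNx : ∀ x ∈ Y, (K : ℤ) * x - t x < N := by
      intro x hx
      have h1 : ((K : ℤ) * x - t x).natAbs ≤ ∑ x ∈ Y, ((K : ℤ) * x - t x).natAbs :=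
        Finset.single_le_sum (f := fun x : ℕ => ((K : ℤ) * x - t x).natAbs)
          (fun _ _ => Nat.zero_le _) hx
      have h2 : ((K : ℤ) * x - t x).natAbs < N' := by omega
      have h3 : N' ≤ N := by
        rw [hN]; exact Nat.le_mul_of_pos_left _ hσpos
      omega
    set b' : ℕ := N * b + 1 with hb'
    have hb'2 : 2 ≤ b' := by nlinarith
    have hco : Nat.Coprime b' σ0 := by
      have h1 : b' = σ0 * (N' * b) + 1 := by rw [hb', hN]; ring
      rw [h1]
      exact (Nat.coprime_mul_left_add_left 1 σ0 (N' * b)).2 (Nat.coprime_one_left σ0)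
    have hgood : Good (glue s b' σ0) := good_glue s hs b' σ0 hb'2 hco x0 y0 hx0 hy0 hσ0
    have hbz : (0 : ℤ) < b := by exact_mod_cast hb
    -- the key equivalence
    have key : ∀ x ∈ Y, (InS (glue s b' σ0) (((b' : ℤ) * d + σ0 * K) * (x : ℤ) +
        (((σ0 * N : ℕ) : ℤ) * g x + wsum L (σ.map (fun s => b' * s)) x)) ↔
        InS s (d * (x : ℤ) + ((σ0 : ℤ) * (g x / (b : ℤ)) + wsum L σ x))) := by
      intro x hx
      set r : ℤ := g x % (b : ℤ) with hr
      have hr0 : 0 ≤ r := Int.emod_nonneg _ hbz.ne'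
      have hrb : r < b := Int.emod_lt_of_pos _ hbz
      have hdm : (b : ℤ) * t x + r = g x := Int.mul_ediv_add_emod (g x) b
      have h1 := hKt x hx
      have h2 := hNx x hx
      have h3 : 0 ≤ (N : ℤ) * r - t x + K * x := by
        have : 0 ≤ (N : ℤ) * r := mul_nonneg (by positivity) hr0
        linarith
      have h4 : (N : ℤ) * r - t x + K * x < b' := by
        have h5 : (N : ℤ) * r ≤ N * (b - 1) := mul_le_mul_of_nonneg_left (by omega) (by positivity)
        have h6 : ((b' : ℕ) : ℤ) = N * b + 1 := by rw [hb']; push_cast; ring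
        rw [h6]
        nlinarith
      have h7 := inS_glue s b' σ0 (by omega) hco (x0 + y0) (by rw [val_add, hσ0])
        (d * (x : ℤ) + ((σ0 : ℤ) * t x + wsum L σ x)) ((N : ℤ) * r - t x + K * x) h3 h4
      have h8 : (b' : ℤ) * (d * (x : ℤ) + ((σ0 : ℤ) * t x + wsum L σ x)) +
          ((N : ℤ) * r - t x + K * x) * σ0 = ((b' : ℤ) * d + σ0 * K) * (x : ℤ) +
        (((σ0 * N : ℕ) : ℤ) * g x + wsum L (σ.map (fun s => b' * s)) x) := by
        rw [wsum_map, ← hdm]
        have h6 : ((b' : ℕ) : ℤ) = N * b + 1 := by rw [hb']; push_cast; ring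
        rw [h6]
        push_cast
        ring
      rw [h8] at h7
      exact h7
    refine ⟨Option ι, inferInstance, inferInstance, glue s b' σ0, (b' : ℤ) * d + σ0 * K,
      (σ0 * N) :: σ.map (fun s => b' * s), hgood, by simp [hlen], ?_, ?_, ?_⟩
    · intro u hu
      rcases List.mem_cons.1 hu with rfl | hu
      · right
        refine ⟨1 • en, (N - 1) • en, ?_, ?_, ?_⟩
        · rw [val_en]; omega
        · rw [val_en]; exact Nat.mul_pos (by omega) hσpos
        · rw [val_en, val_en, ← add_mul]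
          have : 1 + (N - 1) = N := by omega
          rw [this, mul_comm]
      · obtain ⟨v, hv, rfl⟩ := List.mem_map.1 hu
        exact dec_glue s b' σ0 (by omega) v (hdec v (List.mem_cons_of_mem _ hv))
    · intro x hx
      rw [wsum_cons]
      exact (key x (Finset.mem_insert_of_mem hx)).2 (hin x hx)
    · rw [wsum_cons]
      intro hcon
      exact hout ((key F (Finset.mem_insert_self _ _)).1 hcon)

theorem goal_elim (X : Finset ℕ) (hX : ∀ x ∈ X, 0 < x) (F : ℕ) (hF : 0 < F) {f : ℤ → ℤ}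
    (hf : NF f) : ∀ L : List (ℤ → ℤ), Goal X F (f :: L) → Goal X F L := by
  induction hf with
  | lin v =>
    intro L h
    obtain ⟨ι, _, _, s, d, σ, hs, hlen, hdec, hin, hout⟩ := h
    match σ, hlen with
    | σ0 :: σ, hlen =>
    simp only [List.length_cons, Nat.add_right_cancel_iff] at hlen
    simp only [wsum_cons] at hin hout
    refine ⟨ι, inferInstance, inferInstance, s, d + σ0 * v, σ, hs, hlen,
      fun t ht => hdec t (List.mem_cons_of_mem _ ht), ?_, ?_⟩
    · intro x hx
      have := hin x hx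
      have e : (d + σ0 * v) * (x : ℤ) + wsum L σ x = d * (x : ℤ) + ((σ0 : ℤ) * (v * x) + wsum L σ x) := by
        ring
      rw [e]; exact this
    · have e : (d + σ0 * v) * (F : ℤ) + wsum L σ F = d * (F : ℤ) + ((σ0 : ℤ) * (v * F) + wsum L σ F) := by
        ring
      rw [e]; exact hout
  | @add f g hf hg ihf ihg =>
    intro L h
    apply ihg L
    apply ihf (g :: L)
    obtain ⟨ι, _, _, s, d, σ, hs, hlen, hdec, hin, hout⟩ := h
    match σ, hlen with
    | σ0 :: σ, hlen =>
    simp only [List.length_cons, Nat.add_right_cancel_iff] at hlen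
    simp only [wsum_cons] at hin hout
    refine ⟨ι, inferInstance, inferInstance, s, d, σ0 :: σ0 :: σ, hs, by simp [hlen], ?_, ?_, ?_⟩
    · intro t ht
      rcases List.mem_cons.1 ht with rfl | ht
      · exact hdec _ List.mem_cons_self
      · exact hdec t ht
    · intro x hx
      have := hin x hx
      rw [wsum_cons, wsum_cons]
      have e : d * (x : ℤ) + ((σ0 : ℤ) * f x + (σ0 * g x + wsum L σ x)) =
        d * (x : ℤ) + ((σ0 : ℤ) * (f x + g x) + wsum L σ x) := by ring
      rw [e]; exact this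
    · rw [wsum_cons, wsum_cons]
      have e : d * (F : ℤ) + ((σ0 : ℤ) * f F + (σ0 * g F + wsum L σ F)) =
        d * (F : ℤ) + ((σ0 : ℤ) * (f F + g F) + wsum L σ F) := by ring
      rw [e]; exact hout
  | @floor f b hb hf ih =>
    intro L h
    exact ih L (goal_gate X hX F hF f b hb L h)

/-- The semigroup `ℕ` itself. -/
theorem good_unit : Good (fun _ : Unit => 1) := by
  refine ⟨⟨∅, by simp, by simp, ?_⟩, fun _ => one_pos, 0, fun n _ => ⟨fun _ => n, by simp [val]⟩⟩
  intro a b hab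
  have h : a = b := by
    funext u
    simpa [val] using hab
  rw [h]
  exact (cong ∅).refl b

theorem goal_start (X : Finset ℕ) (F : ℕ) (f : ℤ → ℤ) (h1 : ∀ x ∈ X, 0 ≤ f (x : ℤ))
    (h2 : f (F : ℤ) < 0) : Goal X F [f] := by
  refine ⟨Unit, inferInstance, inferInstance, fun _ => 1, 0, [2], good_unit, rfl, ?_, ?_, ?_⟩
  · intro t ht
    rw [List.mem_singleton] at ht
    right
    exact ⟨fun _ => 1, fun _ => 1, by simp [val], by simp [val], by rw [ht]; simp [val]⟩
  · intro x hx
    rw [wsum_cons, wsum_nil]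
    obtain ⟨n, hn⟩ := Int.eq_ofNat_of_zero_le (h1 x hx)
    refine ⟨fun _ => 2 * n, ?_⟩
    rw [hn]; simp [val]
  · rintro ⟨a, ha⟩
    rw [wsum_cons, wsum_nil] at ha
    have : (0 : ℤ) ≤ ((val (fun _ : Unit => 1) a : ℕ) : ℤ) := Int.natCast_nonneg _
    push_cast at ha
    linarith

/-- The realisation theorem: a nested floor function that is nonnegative on `X` and negative at
`F` gives a good semigroup and a multiplier `d`. -/
theorem realise (X : Finset ℕ) (hX : ∀ x ∈ X, 0 < x) (F : ℕ) (hF : 0 < F) (f : ℤ → ℤ) (hf : NF f)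
    (h1 : ∀ x ∈ X, 0 ≤ f (x : ℤ)) (h2 : f (F : ℤ) < 0) :
    ∃ (ι : Type) (_ : Fintype ι) (_ : DecidableEq ι) (s : ι → ℕ) (d : ℤ), Good s ∧
    (∀ x ∈ X, InS s (d * (x : ℤ))) ∧ ¬ InS s (d * (F : ℤ)) := by
  obtain ⟨ι, i1, i2, s, d, σ, hs, hlen, hdec, hin, hout⟩ :=
    goal_elim X hX F hF hf [] (goal_start X F f h1 h2)
  have hσ : σ = [] := List.eq_nil_of_length_eq_zero hlen
  subst hσ
  refine ⟨ι, i1, i2, s, d, hs, fun x hx => ?_, ?_⟩
  · have := hin x hx
    rwa [wsum_nil, add_zero] at this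
  · rwa [wsum_nil, add_zero] at hout

end Pool.Agent.TH235.CIQ
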