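import Pool.Agent.TH235.IncLocal

namespace Pool.Agent.TH235.Inc

def bit (k : Fin 10) : ℕ := 2 ^ k.val

/-- table of the faces of the two-level local complexes, indexed by bit masks -/
def tbl : Bool → ℕ
  | true => 0x10005000000000000000000000000000000000000000000000000000100110001005500000000000000000000000000000105000000000000000000000000010101050000000000000103000000000000010f000000130000111300030013131f57ff
  | false => 0x10005000000000000000000000000000000000000000000000000000100110001005500000000000000000000000000000105000000000000000000000000010101050000000000000103000000000000010f0000001300001113000300130103115f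

def face (z : Bool) (mask : ℕ) : Bool := (tbl z).testBit mask

theorem face_of : ∀ (z : Bool) (t : Fin 4), (t = 0 → z = true) → ∀ (j : ZMod 5) (a : Fin 10),
    lmem t j a = true → ∀ b : Fin 10, lmem t j b = true → ∀ c : Fin 10, lmem t j c = true →
    face z (bit a ||| bit b ||| bit c) = true := by
  decide +kernel

theorem of_face : ∀ (z : Bool) (mask : Fin 1024), face z mask.val = true →
    ∃ (t : Fin 4) (j : ZMod 5), (t = 0 → z = true) ∧
      ∀ k : Fin 10, mask.val.testBit k.val = true → lmem t j k = true := by
  decide +kernel

/-- the ten dihedral embeddings onto level `0` -/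
def dih (a b c d e : Fin 10) : Bool :=
  ((a.val + 1) % 5 == b.val && (b.val + 1) % 5 == c.val && (c.val + 1) % 5 == d.val &&
    (d.val + 1) % 5 == e.val && (e.val + 1) % 5 == a.val) ||
  ((b.val + 1) % 5 == a.val && (c.val + 1) % 5 == b.val && (d.val + 1) % 5 == c.val &&
    (e.val + 1) % 5 == d.val && (a.val + 1) % 5 == e.val)

theorem brute : ∀ (z : Bool) (a b c : Fin 10), face z (bit a ||| bit b ||| bit c) = true →
    ∀ d : Fin 10, face z (bit b ||| bit c ||| bit d) = true →
    ∀ e : Fin 10, face z (bit c ||| bit d ||| bit e) = true →
      face z (bit d ||| bit e ||| bit a) = true → face z (bit e ||| bit a ||| bit b) = true →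
      (face z (bit a ||| bit b ||| bit c ||| bit d ||| bit e) = true ∨
        (z = true ∧ dih a b c d e = true)) := by
  decide +kernel

end Pool.Agent.TH235.Inc
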