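import Pool.Agent.TH235.IncBrute

namespace Pool.Agent.TH235.Inc

set_option linter.unusedSimpArgs false

/-- centered lift -/
def dl (x : ZMod 5) : ℤ :=
  if x = 0 then 0 else if x = 1 then 1 else if x = 2 then 2 else if x = 3 then -2 else -1

def ep (x : ZMod 5) : ℤ := if x = 1 then 1 else if x = 2 then 2 else 0

/-- the 1-cocycle generating `H^1` of the truncated complex -/
def cc (n : ℕ) (a b : Vtx) : ℤ :=
  if a.1 = b.1 then 2 ^ (n + 1 - a.1) * dl (b.2 - a.2)
  else if b.1 = a.1 + 1 then 2 ^ (n - a.1) * ep (b.2 - 2 * a.2)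
  else if a.1 = b.1 + 1 then -(2 ^ (n - b.1) * ep (a.2 - 2 * b.2))
  else 0

theorem dl_neg : ∀ x : ZMod 5, dl (-x) = - dl x := by decide

theorem cc_self (n : ℕ) (a : Vtx) : cc n a a = 0 := by
  simp [cc, dl]

theorem cc_anti (n : ℕ) (a b : Vtx) : cc n b a = - cc n a b := by
  unfold cc
  by_cases h1 : a.1 = b.1
  · rw [if_pos h1, if_pos h1.symm, h1, ← neg_sub, dl_neg]
    ring
  · rw [if_neg h1, if_neg (fun h => h1 h.symm)]
    by_cases h2 : b.1 = a.1 + 1
    · have h3 : ¬ a.1 = b.1 + 1 := by omega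
      rw [if_pos h2, if_neg h3, if_pos h2]
    · rw [if_neg h2]
      by_cases h3 : a.1 = b.1 + 1
      · rw [if_pos h3, if_neg h2, if_pos h3]; ring
      · rw [if_neg h3, if_neg h2, if_neg h3]; ring

theorem cc_tri (n : ℕ) (F : Fct) (h : F.m ≤ n) :
    cc n F.p1 F.p2 + cc n F.p2 F.p3 + cc n F.p3 F.p1 = 0 := by
  obtain ⟨t, m, j, ht⟩ := F
  simp only at h
  have e0 : n + 1 - (m + 1) = n - m := by omega
  have e2 : ¬ (m = m + 1 + 1) := by omega
  have e1 : (2 : ℤ) ^ (n + 1 - m) = 2 * 2 ^ (n - m) := by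
    rw [show n + 1 - m = (n - m) + 1 by omega, pow_succ]; ring
  have d1 : dl 1 = 1 := by decide
  have dm2 : dl (-2) = -2 := by decide
  have q0 : ep 0 = 0 := by decide
  have q1 : ep 1 = 1 := by decide
  have q2 : ep 2 = 2 := by decide
  fin_cases t
  · have : m = 0 := ht rfl
    subst this
    have a1 : (j + 1) - j = 1 := by ring
    have a2 : (j + 2) - (j + 1) = 1 := by ring
    have a3 : j - (j + 2) = -2 := by ring
    simp [cc, Fct.p1, Fct.p2, Fct.p3, tri, a1, a2, a3, d1, dm2]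
    ring
  · have a1 : 2 * j - 2 * j = 0 := by ring
    have a2 : (2 * j + 1) - (2 * j) = 1 := by ring
    have a3 : (2 * j + 1) - 2 * j = 1 := by ring
    simp [cc, Fct.p1, Fct.p2, Fct.p3, tri, a1, a2, a3, d1, dm2, q0, q1, q2, e0, e1, e2]
  · have a1 : (2 * j + 1) - 2 * j = 1 := by ring
    have a2 : (2 * j + 2) - (2 * j + 1) = 1 := by ring
    have a3 : (2 * j + 2) - 2 * j = 2 := by ring
    simp [cc, Fct.p1, Fct.p2, Fct.p3, tri, a1, a2, a3, d1, dm2, q0, q1, q2, e0, e1, e2]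
    ring
  · have a1 : (j + 1) - j = 1 := by ring
    have a2 : (2 * j + 2) - 2 * (j + 1) = 0 := by ring
    have a3 : (2 * j + 2) - 2 * j = 2 := by ring
    simp [cc, Fct.p1, Fct.p2, Fct.p3, tri, a1, a2, a3, d1, dm2, q0, q1, q2, e0, e1, e2]
    ring

theorem cc_cocycle (n : ℕ) (F : Fct) (h : F.m ≤ n) {a b d : Vtx} (ha : F.Mem a) (hb : F.Mem b)
    (hd : F.Mem d) : cc n a b + cc n b d + cc n d a = 0 := by
  have ht := cc_tri n F h
  have s1 := cc_self n F.p1
  have s2 := cc_self n F.p2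
  have s3 := cc_self n F.p3
  have a12 := cc_anti n F.p1 F.p2
  have a13 := cc_anti n F.p1 F.p3
  have a23 := cc_anti n F.p2 F.p3
  rcases ha with rfl | rfl | rfl <;> rcases hb with rfl | rfl | rfl <;>
    rcases hd with rfl | rfl | rfl <;> linarith

end Pool.Agent.TH235.Inc
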