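import Mathlib

/-!
Combinatorics of the infinite telescope complex used for MP_a762d4_al.

Vertices are pairs `(m, j)` with `m : ℕ` (level) and `j : ZMod 5`.
Facets: at level `0` the five triangles of the 5-vertex Moebius band,
and for every `m` the fifteen triangles of an annulus that joins the 5-cycle of level `m`
to the twice-wrapped 5-cycle of level `m + 1`.
-/

namespace Pool.Agent.TH235.Inc

/-- vertices of the complex -/
abbrev Vtx := ℕ × ZMod 5

/-- the three vertices of the triangle of type `t` with parameters `(m, j)` -/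
def tri (t : Fin 4) (m : ℕ) (j : ZMod 5) : Vtx × Vtx × Vtx :=
  match t with
  | 0 => ((m, j), (m, j + 1), (m, j + 2))
  | 1 => ((m, j), (m + 1, 2 * j), (m + 1, 2 * j + 1))
  | 2 => ((m, j), (m + 1, 2 * j + 1), (m + 1, 2 * j + 2))
  | 3 => ((m, j), (m, j + 1), (m + 1, 2 * j + 2))

/-- facets: type `0` only occurs at level `0` -/
structure Fct where
  t : Fin 4
  m : ℕ
  j : ZMod 5
  ht : t = 0 → m = 0

def Fct.p1 (F : Fct) : Vtx := (tri F.t F.m F.j).1
def Fct.p2 (F : Fct) : Vtx := (tri F.t F.m F.j).2.1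
def Fct.p3 (F : Fct) : Vtx := (tri F.t F.m F.j).2.2

/-- membership of a vertex in a facet -/
def Fct.Mem (F : Fct) (v : Vtx) : Prop := v = F.p1 ∨ v = F.p2 ∨ v = F.p3

/-- local codes: the codes `0..4` are level `m`, the codes `5..9` are level `m+1` -/
def enc (m : ℕ) (k : Fin 10) : Vtx := (m + k.val / 5, (k.val : ZMod 5))

/-- local membership -/
def lmem (t : Fin 4) (j : ZMod 5) (k : Fin 10) : Bool :=
  decide (enc 0 k = (tri t 0 j).1 ∨ enc 0 k = (tri t 0 j).2.1 ∨ enc 0 k = (tri t 0 j).2.2)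

theorem Fct.lev {F : Fct} {v : Vtx} (h : F.Mem v) : v.1 = F.m ∨ v.1 = F.m + 1 := by
  obtain ⟨t, m, j, ht⟩ := F
  fin_cases t <;> simp [Fct.Mem, Fct.p1, Fct.p2, Fct.p3, tri] at h ⊢ <;>
    rcases h with h | h | h <;> simp [h]

theorem shift (t : Fin 4) (m : ℕ) (j : ZMod 5) (a : ℕ) (x : ZMod 5) :
    (((m + a, x) : Vtx) = (tri t m j).1 ∨ ((m + a, x) : Vtx) = (tri t m j).2.1 ∨
      ((m + a, x) : Vtx) = (tri t m j).2.2) ↔
    (((a, x) : Vtx) = (tri t 0 j).1 ∨ ((a, x) : Vtx) = (tri t 0 j).2.1 ∨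
      ((a, x) : Vtx) = (tri t 0 j).2.2) := by
  have h1 : ∀ (b : ℕ) (y : ZMod 5), ((m + a, x) : Vtx) = (m + b, y) ↔
      ((a, x) : Vtx) = (0 + b, y) := by
    intro b y
    simp
  have h0 : ∀ (y : ZMod 5), ((m + a, x) : Vtx) = (m, y) ↔
      ((a, x) : Vtx) = (0, y) := by
    intro y
    simp
  fin_cases t <;> simp only [tri, h1, h0]

theorem local_same (t : Fin 4) (m : ℕ) (j : ZMod 5) (k : Fin 10) :
    (enc m k = (tri t m j).1 ∨ enc m k = (tri t m j).2.1 ∨ enc m k = (tri t m j).2.2) ↔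
      lmem t j k = true := by
  rw [lmem, decide_eq_true_iff]
  have := shift t m j (k.val / 5) (k.val : ZMod 5)
  unfold enc
  rw [this, Nat.zero_add]

/-- every local vertex is coded -/
theorem exists_enc {m : ℕ} {v : Vtx} (h : v.1 = m ∨ v.1 = m + 1) : ∃ k, v = enc m k := by
  obtain ⟨l, i⟩ := v
  rcases h with h | h
  · simp only at h
    subst h
    have : ∀ i : ZMod 5, ∃ k : Fin 10, k.val / 5 = 0 ∧ (k.val : ZMod 5) = i := by decide
    obtain ⟨k, hk, hi⟩ := this i
    exact ⟨k, by simp [enc, hk, hi]⟩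
  · simp only at h
    subst h
    have : ∀ i : ZMod 5, ∃ k : Fin 10, k.val / 5 = 1 ∧ (k.val : ZMod 5) = i := by decide
    obtain ⟨k, hk, hi⟩ := this i
    exact ⟨k, by simp [enc, hk, hi]⟩

/-- a facet meets levels `m, m+1` inside a local facet of these levels -/
theorem to_local (F : Fct) (m : ℕ) : ∃ (t : Fin 4) (j : ZMod 5), (t = 0 → m = 0) ∧
    ∀ k : Fin 10, F.Mem (enc m k) → lmem t j k = true := by
  obtain ⟨t, m', j, ht⟩ := F
  by_cases h1 : m' = m
  · subst h1
    exact ⟨t, j, ht, fun k hk => (local_same t m' j k).1 hk⟩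
  by_cases h2 : m' + 1 = m
  · subst h2
    -- use a facet of type `3`
    have key : ∀ (t : Fin 4) (j : ZMod 5), ∃ j' : ZMod 5, ∀ k : Fin 10, t ≠ 0 →
        ((1 + k.val / 5, (k.val : ZMod 5)) = (tri t 0 j).1 ∨
         (1 + k.val / 5, (k.val : ZMod 5)) = (tri t 0 j).2.1 ∨
         (1 + k.val / 5, (k.val : ZMod 5)) = (tri t 0 j).2.2) → lmem 3 j' k = true := by
      decide +kernel
    obtain ⟨j', hj'⟩ := key t j
    refine ⟨3, j', by simp, fun k hk => hj' k ?_ ?_⟩
    · rintro rfl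
      have hm : m' = 0 := ht rfl
      subst hm
      simp [Fct.Mem, Fct.p1, Fct.p2, Fct.p3, tri, enc] at hk
    · have := shift t m' j (1 + k.val / 5) (k.val : ZMod 5)
      rw [← this, ← Nat.add_assoc]
      exact hk
  by_cases h3 : m' = m + 1
  · subst h3
    have key : ∀ (t : Fin 4) (j : ZMod 5) (k : Fin 10), t ≠ 0 → 1 ≤ k.val / 5 →
        ((k.val / 5 - 1, (k.val : ZMod 5)) = (tri t 0 j).1 ∨
         (k.val / 5 - 1, (k.val : ZMod 5)) = (tri t 0 j).2.1 ∨
         (k.val / 5 - 1, (k.val : ZMod 5)) = (tri t 0 j).2.2) → lmem 1 (3 * j) k = true := by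
      decide +kernel
    have ht' : t ≠ 0 := fun h => by have := ht h; omega
    refine ⟨1, 3 * j, by simp, fun k hk => ?_⟩
    have hl : 1 ≤ k.val / 5 := by
      have := Fct.lev hk
      simp only [enc] at this
      omega
    refine key t j k ht' hl ?_
    have := shift t (m + 1) j (k.val / 5 - 1) (k.val : ZMod 5)
    rw [← this]
    have e : m + 1 + (k.val / 5 - 1) = m + k.val / 5 := by omega
    rw [e]
    exact hk
  · refine ⟨1, 0, by simp, fun k hk => ?_⟩
    exfalso
    have := Fct.lev hk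
    simp only [enc] at this
    have : k.val < 10 := k.2
    omega

end Pool.Agent.TH235.Inc
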