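import Pool.Agent.TH235.IncCoc

namespace Pool.Agent.TH235.Inc

open Finset

theorem bij2 : Function.Bijective (fun j : ZMod 5 => 2 * j) := by decide
theorem bij21 : Function.Bijective (fun j : ZMod 5 => 2 * j + 1) := by decide
theorem bij1 : Function.Bijective (fun j : ZMod 5 => j + 1) := by decide

/-- every simplicial map of the infinite complex to a truncated one kills the base loop -/
theorem loop_zero (n : ℕ) (f : Vtx → Vtx)
    (hf : ∀ F : Fct, ∃ G : Fct, G.m ≤ n ∧ ∀ v, F.Mem v → G.Mem (f v)) :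
    ∑ j : ZMod 5, cc n (f (0, j)) (f (0, j + 1)) = 0 := by
  have hstep : ∀ m : ℕ, ∑ j : ZMod 5, cc n (f (m, j)) (f (m, j + 1)) =
      2 * ∑ j : ZMod 5, cc n (f (m + 1, j)) (f (m + 1, j + 1)) := by
    intro m
    set P : ZMod 5 → ℤ := fun j => cc n (f (m, j)) (f (m + 1, 2 * j)) with hP
    set e : ZMod 5 → ℤ := fun k => cc n (f (m + 1, k)) (f (m + 1, k + 1)) with he
    have hl : ∀ j : ZMod 5, cc n (f (m, j)) (f (m, j + 1)) =
        P j - P (j + 1) + e (2 * j) + e (2 * j + 1) := by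
      intro j
      have E1 : cc n (f (m, j)) (f (m + 1, 2 * j)) +
          cc n (f (m + 1, 2 * j)) (f (m + 1, 2 * j + 1)) +
          cc n (f (m + 1, 2 * j + 1)) (f (m, j)) = 0 := by
        obtain ⟨G, hG, hGf⟩ := hf ⟨1, m, j, by simp⟩
        exact cc_cocycle n G hG (hGf _ (Or.inl rfl)) (hGf _ (Or.inr (Or.inl rfl)))
          (hGf _ (Or.inr (Or.inr rfl)))
      have E2 : cc n (f (m, j)) (f (m + 1, 2 * j + 1)) +
          cc n (f (m + 1, 2 * j + 1)) (f (m + 1, 2 * j + 2)) +
          cc n (f (m + 1, 2 * j + 2)) (f (m, j)) = 0 := by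
        obtain ⟨G, hG, hGf⟩ := hf ⟨2, m, j, by simp⟩
        exact cc_cocycle n G hG (hGf _ (Or.inl rfl)) (hGf _ (Or.inr (Or.inl rfl)))
          (hGf _ (Or.inr (Or.inr rfl)))
      have E3 : cc n (f (m, j)) (f (m, j + 1)) +
          cc n (f (m, j + 1)) (f (m + 1, 2 * j + 2)) +
          cc n (f (m + 1, 2 * j + 2)) (f (m, j)) = 0 := by
        obtain ⟨G, hG, hGf⟩ := hf ⟨3, m, j, by simp⟩
        exact cc_cocycle n G hG (hGf _ (Or.inl rfl)) (hGf _ (Or.inr (Or.inl rfl)))
          (hGf _ (Or.inr (Or.inr rfl)))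
      have A1 := cc_anti n (f (m, j)) (f (m + 1, 2 * j + 1))
      have A2 := cc_anti n (f (m, j)) (f (m + 1, 2 * j + 2))
      have r1 : P (j + 1) = cc n (f (m, j + 1)) (f (m + 1, 2 * j + 2)) := by
        simp only [hP]
        rw [show 2 * (j + 1) = 2 * j + 2 by ring]
      have r2 : e (2 * j + 1) = cc n (f (m + 1, 2 * j + 1)) (f (m + 1, 2 * j + 2)) := by
        simp only [he]
        rw [show 2 * j + 1 + 1 = 2 * j + 2 by ring]
      rw [r1, r2]
      simp only [hP, he]
      linarith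
    rw [Finset.sum_congr rfl (fun j _ => hl j), Finset.sum_add_distrib, Finset.sum_add_distrib,
      Finset.sum_sub_distrib, bij1.sum_comp P, bij2.sum_comp e, bij21.sum_comp e]
    ring
  have hdvd : ∀ k : ℕ, ∑ j : ZMod 5, cc n (f (0, j)) (f (0, j + 1)) =
      2 ^ k * ∑ j : ZMod 5, cc n (f (k, j)) (f (k, j + 1)) := by
    intro k
    induction k with
    | zero => simp
    | succ k ih => rw [ih, hstep k, pow_succ]; ring
  set x := ∑ j : ZMod 5, cc n (f (0, j)) (f (0, j + 1)) with hx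
  obtain ⟨k, hk⟩ : ∃ k : ℕ, |x| < 2 ^ k := by
    refine ⟨x.natAbs, ?_⟩
    rw [Int.abs_eq_natAbs]
    exact_mod_cast Nat.lt_two_pow_self
  exact Int.eq_zero_of_abs_lt_dvd (Dvd.intro _ (hdvd k).symm) hk

/-- the function on `ZMod 5` with the given five values -/
def vec {α : Type*} (a b c d e : α) (i : ZMod 5) : α := (![a, b, c, d, e] : Fin 5 → α) i

theorem vec_eq {α : Type*} (h : ZMod 5 → α) (i : ZMod 5) :
    vec (h 0) (h 1) (h 2) (h 3) (h 4) i = h i := by
  fin_cases i <;> rfl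

theorem rainbow_key : ∀ a b c d e : Fin 3, ∃ j : ZMod 5, ∀ i : ZMod 5,
    vec a b c d e i = vec a b c d e j ∨ vec a b c d e i = vec a b c d e (j + 1) ∨
      vec a b c d e i = vec a b c d e (j + 2) := by
  decide +kernel

/-- any colouring of `ZMod 5` with at most three colours has a window meeting all colours -/
theorem rainbow {V : Type*} [DecidableEq V] (g : ZMod 5 → V)
    (hc : (Finset.univ.image g).card ≤ 3) :
    ∃ j, ∀ i, g i = g j ∨ g i = g (j + 1) ∨ g i = g (j + 2) := by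
  let h : ZMod 5 → Fin 3 := fun i =>
    Fin.castLE hc ((Finset.univ.image g).equivFin
      ⟨g i, Finset.mem_image_of_mem g (Finset.mem_univ i)⟩)
  have hh : ∀ i j, h i = h j → g i = g j := by
    intro i j hij
    have h1 := Fin.castLE_injective hc hij
    have h2 := (Finset.univ.image g).equivFin.injective h1
    simpa using h2
  obtain ⟨j, hj⟩ := rainbow_key (h 0) (h 1) (h 2) (h 3) (h 4)
  refine ⟨j, fun i => ?_⟩
  rcases hj i with h1 | h1 | h1
  · left; apply hh; rw [vec_eq, vec_eq] at h1; exact h1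
  · right; left; apply hh; rw [vec_eq, vec_eq] at h1; exact h1
  · right; right; apply hh; rw [vec_eq, vec_eq] at h1; exact h1

end Pool.Agent.TH235.Inc
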