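import Pool.Agent.TH235.IncLoop

namespace Pool.Agent.TH235.Inc

open Finset

theorem lemA {V : Type*} [DecidableEq V] (s : ZMod 5 → Finset V) (hne : ∀ j, (s j).Nonempty)
    (hsel : ∀ g : ZMod 5 → V, (∀ j, g j ∈ s j) → (Finset.univ.image g).card ≤ 3)
    (hwin : ∀ j, (s j ∪ s (j + 1) ∪ s (j + 2)).card ≤ 3) :
    ∃ j, ∀ i, s i ⊆ s j ∪ s (j + 1) ∪ s (j + 2) := by
  have hpi : (Fintype.piFinset s).Nonempty := Fintype.piFinset_nonempty.2 hne
  obtain ⟨g, hg, hmax⟩ := Finset.exists_max_image (Fintype.piFinset s)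
    (fun g => (Finset.univ.image g).card) hpi
  rw [Fintype.mem_piFinset] at hg
  -- the singleton-class property
  have hsing : ∀ i p, p ∈ s i → p ∉ Finset.univ.image g → ∀ k, k ≠ i → g k ≠ g i := by
    intro i p hp hpF k hki hgk
    have hg' : Function.update g i p ∈ Fintype.piFinset s := by
      rw [Fintype.mem_piFinset]
      intro l
      by_cases hl : l = i
      · subst hl; simpa using hp
      · simpa [Function.update_of_ne hl] using hg l
    have hsub : insert p (Finset.univ.image g) ⊆ Finset.univ.image (Function.update g i p) := by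
      intro x hx
      rw [Finset.mem_insert] at hx
      rcases hx with rfl | hx
      · exact Finset.mem_image.2 ⟨i, Finset.mem_univ _, by simp⟩
      · obtain ⟨l, -, rfl⟩ := Finset.mem_image.1 hx
        by_cases hl : l = i
        · subst hl
          exact Finset.mem_image.2 ⟨k, Finset.mem_univ _, by rw [Function.update_of_ne hki, hgk]⟩
        · exact Finset.mem_image.2 ⟨l, Finset.mem_univ _, by rw [Function.update_of_ne hl]⟩
    have h1 := Finset.card_le_card hsub
    rw [Finset.card_insert_of_notMem hpF] at h1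
    have h2 := hmax _ hg'
    omega
  obtain ⟨j, hj⟩ := rainbow g (hsel g hg)
  refine ⟨j, ?_⟩
  have hFW : ∀ i, g i ∈ s j ∪ s (j + 1) ∪ s (j + 2) := by
    intro i
    simp only [Finset.mem_union]
    rcases hj i with h | h | h
    · rw [h]; exact Or.inl (Or.inl (hg _))
    · rw [h]; exact Or.inl (Or.inr (hg _))
    · rw [h]; exact Or.inr (hg _)
  have hFW' : Finset.univ.image g ⊆ s j ∪ s (j + 1) ∪ s (j + 2) := by
    intro x hx
    obtain ⟨l, -, rfl⟩ := Finset.mem_image.1 hx
    exact hFW l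
  by_cases hall : ∀ i, s i ⊆ Finset.univ.image g
  · exact fun i => (hall i).trans hFW'
  · push Not at hall
    obtain ⟨i, hi⟩ := hall
    rw [Finset.not_subset] at hi
    obtain ⟨p, hp, hpF⟩ := hi
    have hi1 := hsing i p hp hpF
    have hiW : i = j ∨ i = j + 1 ∨ i = j + 2 := by
      rcases hj i with h | h | h
      · left; by_contra hne'; exact hi1 j (fun h' => hne' h'.symm) h.symm
      · right; left; by_contra hne'; exact hi1 (j + 1) (fun h' => hne' h'.symm) h.symm
      · right; right; by_contra hne'; exact hi1 (j + 2) (fun h' => hne' h'.symm) h.symm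
    have hsiW : s i ⊆ s j ∪ s (j + 1) ∪ s (j + 2) := by
      intro x hx
      simp only [Finset.mem_union]
      rcases hiW with h | h | h
      · rw [h] at hx; exact Or.inl (Or.inl hx)
      · rw [h] at hx; exact Or.inl (Or.inr hx)
      · rw [h] at hx; exact Or.inr hx
    have hcard : (Finset.univ.image g).card ≤ 2 := by
      have h1 : insert p (Finset.univ.image g) ⊆ s j ∪ s (j + 1) ∪ s (j + 2) :=
        Finset.insert_subset (hsiW hp) hFW'
      have h2 := Finset.card_le_card h1
      rw [Finset.card_insert_of_notMem hpF] at h2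
      have := hwin j
      omega
    intro k
    by_cases hki : k = i
    · rw [hki]; exact hsiW
    · refine Finset.Subset.trans ?_ hFW'
      intro q hq
      by_contra hqF
      have hk1 := hsing k q hq hqF
      -- a third index
      obtain ⟨l, hli, hlk⟩ : ∃ l : ZMod 5, l ≠ i ∧ l ≠ k := by
        have : ∀ i k : ZMod 5, ∃ l : ZMod 5, l ≠ i ∧ l ≠ k := by decide
        exact this i k
      have hlk' : g l ≠ g k := hk1 l hlk
      have hli' : g l ≠ g i := hi1 l hli
      have hki' : g k ≠ g i := hi1 k hki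
      have h3 : ({g l, g k, g i} : Finset V) ⊆ Finset.univ.image g := by
        intro x hx
        simp only [Finset.mem_insert, Finset.mem_singleton] at hx
        rcases hx with rfl | rfl | rfl
        · exact Finset.mem_image_of_mem g (Finset.mem_univ _)
        · exact Finset.mem_image_of_mem g (Finset.mem_univ _)
        · exact Finset.mem_image_of_mem g (Finset.mem_univ _)
      have h4 := Finset.card_le_card h3
      rw [Finset.card_eq_three.2 ⟨g l, g k, g i, hlk', hli', hki', rfl⟩] at h4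
      omega

/-- the local analysis: a map of the base Moebius band into a truncated complex that kills the
core loop has image inside a facet -/
theorem lemB (n : ℕ) (g : ZMod 5 → Vtx)
    (hg : ∀ j, ∃ F : Fct, F.m ≤ n ∧ F.Mem (g j) ∧ F.Mem (g (j + 1)) ∧ F.Mem (g (j + 2)))
    (hs : ∑ j, cc n (g j) (g (j + 1)) = 0) :
    ∃ F : Fct, F.m ≤ n ∧ ∀ j, F.Mem (g j) := by
  -- levels
  have hpair : ∀ i j : ZMod 5, ∃ F : Fct, F.m ≤ n ∧ F.Mem (g i) ∧ F.Mem (g j) := by
    intro i j
    have key : ∀ i j : ZMod 5, ∃ k : ZMod 5, (i = k ∨ i = k + 1 ∨ i = k + 2) ∧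
        (j = k ∨ j = k + 1 ∨ j = k + 2) := by decide
    obtain ⟨k, hi, hj⟩ := key i j
    obtain ⟨F, hF, h1, h2, h3⟩ := hg k
    refine ⟨F, hF, ?_, ?_⟩
    · rcases hi with rfl | rfl | rfl <;> assumption
    · rcases hj with rfl | rfl | rfl <;> assumption
  obtain ⟨i0, hi0⟩ := Finite.exists_min (fun j => (g j).1)
  obtain ⟨m, hmn, hm⟩ : ∃ m, m ≤ n ∧ ∀ j, (g j).1 = m ∨ (g j).1 = m + 1 := by
    refine ⟨min (g i0).1 n, min_le_right _ _, fun j => ?_⟩
    obtain ⟨F, hF, h1, h2⟩ := hpair i0 j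
    have a1 := Fct.lev h1
    have a2 := Fct.lev h2
    have a3 := hi0 j
    omega
  choose h hh using fun j => exists_enc (hm j)
  -- the local faces
  have hloc : ∀ j, face (decide (m = 0)) (bit (h j) ||| bit (h (j + 1)) ||| bit (h (j + 2))) =
      true := by
    intro j
    obtain ⟨F, hF, h1, h2, h3⟩ := hg j
    obtain ⟨t, j', ht, hl⟩ := to_local F m
    rw [hh] at h1 h2 h3
    exact face_of _ t (fun h0 => by simpa using ht h0) j' _ (hl _ h1) _ (hl _ h2) _ (hl _ h3)
  have b0 := hloc 0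
  have b1 := hloc 1
  have b2 := hloc 2
  have b3 := hloc 3
  have b4 := hloc 4
  rcases brute (decide (m = 0)) (h 0) (h 1) (h 2) b0 (h 3) b1 (h 4) b2 b3 b4 with hf | ⟨hz, hd⟩
  · -- a face
    have hb : ∀ k : Fin 10, bit k < 2 ^ 10 := fun k => Nat.pow_lt_pow_right (by norm_num) k.2
    have hlt : bit (h 0) ||| bit (h 1) ||| bit (h 2) ||| bit (h 3) ||| bit (h 4) < 1024 :=
      Nat.or_lt_two_pow (Nat.or_lt_two_pow (Nat.or_lt_two_pow (Nat.or_lt_two_pow (hb _) (hb _))
        (hb _)) (hb _)) (hb _)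
    obtain ⟨t, j', ht, hall⟩ := of_face _ ⟨_, hlt⟩ hf
    have ht' : t = 0 → m = 0 := fun h0 => by simpa using ht h0
    refine ⟨⟨t, m, j', ht'⟩, hmn, fun j => ?_⟩
    rw [hh]
    refine (local_same t m j' (h j)).2 (hall _ ?_)
    have hself : ∀ k : Fin 10, (bit k).testBit k.val = true := fun k => Nat.testBit_two_pow_self
    simp only [Nat.testBit_or, Bool.or_eq_true]
    have hj : j = 0 ∨ j = 1 ∨ j = 2 ∨ j = 3 ∨ j = 4 := by
      revert j; decide
    rcases hj with rfl | rfl | rfl | rfl | rfl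
    · exact Or.inl (Or.inl (Or.inl (Or.inl (hself _))))
    · exact Or.inl (Or.inl (Or.inl (Or.inr (hself _))))
    · exact Or.inl (Or.inl (Or.inr (hself _)))
    · exact Or.inl (Or.inr (hself _))
    · exact Or.inr (hself _)
  · exfalso
    have hm0 : m = 0 := by simpa using hz
    subst hm0
    have hsum : ∑ j : ZMod 5, cc n (g j) (g (j + 1)) =
        cc n (g 0) (g 1) + cc n (g 1) (g 2) + cc n (g 2) (g 3) + cc n (g 3) (g 4) +
          cc n (g 4) (g 0) := by
      exact Fin.sum_univ_five (fun j : ZMod 5 => cc n (g j) (g (j + 1)))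
    rw [hsum] at hs
    have hup : ∀ a b : Fin 10, (a.val + 1) % 5 = b.val → a.val / 5 = 0 → b.val / 5 = 0 →
        cc n (enc 0 a) (enc 0 b) = 2 ^ (n + 1) := by
      intro a b hab ha hb
      have key : ∀ a b : Fin 10, (a.val + 1) % 5 = b.val →
          dl ((b.val : ZMod 5) - (a.val : ZMod 5)) = 1 := by decide
      simp [cc, enc, ha, hb, key a b hab]
    have hdn : ∀ a b : Fin 10, (b.val + 1) % 5 = a.val → a.val / 5 = 0 → b.val / 5 = 0 →
        cc n (enc 0 a) (enc 0 b) = - 2 ^ (n + 1) := by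
      intro a b hab ha hb
      rw [cc_anti, hup b a hab hb ha]
    have hdiv : ∀ a b : Fin 10, (a.val + 1) % 5 = b.val → b.val / 5 = 0 := by decide
    simp only [dih, Bool.or_eq_true, Bool.and_eq_true, beq_iff_eq] at hd
    have hpos : (0 : ℤ) < 2 ^ (n + 1) := by positivity
    rcases hd with ⟨⟨⟨⟨d1, d2⟩, d3⟩, d4⟩, d5⟩ | ⟨⟨⟨⟨d1, d2⟩, d3⟩, d4⟩, d5⟩
    · have z1 := hdiv _ _ d1
      have z2 := hdiv _ _ d2
      have z3 := hdiv _ _ d3
      have z4 := hdiv _ _ d4
      have z0 := hdiv _ _ d5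
      rw [hh 0, hh 1, hh 2, hh 3, hh 4, hup _ _ d1 z0 z1, hup _ _ d2 z1 z2, hup _ _ d3 z2 z3,
        hup _ _ d4 z3 z4, hup _ _ d5 z4 z0] at hs
      linarith
    · have z0 := hdiv _ _ d1
      have z1 := hdiv _ _ d2
      have z2 := hdiv _ _ d3
      have z3 := hdiv _ _ d4
      have z4 := hdiv _ _ d5
      rw [hh 0, hh 1, hh 2, hh 3, hh 4, hdn _ _ d1 z0 z1, hdn _ _ d2 z1 z2, hdn _ _ d3 z2 z3,
        hdn _ _ d4 z3 z4, hdn _ _ d5 z4 z0] at hs
      linarith

end Pool.Agent.TH235.Inc
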