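import Mathlib

/-!
Nested floor functions and separation of gaps of a numerical semigroup.
-/

namespace Pool.Agent.TH235.CIQ

/-- Nested floor functions: the smallest class of functions `ℤ → ℤ` that contains the linear ones
and is closed under sums and under `f ↦ ⌊f / b⌋`. -/
inductive NF : (ℤ → ℤ) → Prop
  | lin (v : ℤ) : NF (fun x => v * x)
  | add {f g : ℤ → ℤ} (hf : NF f) (hg : NF g) : NF (fun x => f x + g x)
  | floor {f : ℤ → ℤ} (b : ℕ) (hb : 0 < b) (hf : NF f) : NF (fun x => f x / (b : ℤ))

theorem NF.map_zero {f : ℤ → ℤ} (hf : NF f) : f 0 = 0 := by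
  induction hf with
  | lin v => simp
  | add hf hg h1 h2 => simp [h1, h2]
  | floor b hb hf h => simp [h]

theorem NF.congr {f g : ℤ → ℤ} (hf : NF f) (h : ∀ x, f x = g x) : NF g := by
  have : f = g := funext h
  rwa [← this]

theorem NF.nsmul {f : ℤ → ℤ} (hf : NF f) (n : ℕ) : NF (fun x => (n : ℤ) * f x) := by
  induction n with
  | zero => exact (NF.lin 0).congr (by intro x; simp)
  | succ n ih => exact (NF.add ih hf).congr (by intro x; push_cast; ring)

theorem NF.sum {α : Type} (A : Finset α) (F : α → ℤ → ℤ) (h : ∀ a ∈ A, NF (F a)) :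
    NF (fun x => ∑ a ∈ A, F a x) := by
  classical
  induction A using Finset.induction_on with
  | empty => exact (NF.lin 0).congr (by intro x; simp)
  | insert a s ha ih =>
    have h1 : NF (F a) := h a (Finset.mem_insert_self _ _)
    have h2 := ih (fun b hb => h b (Finset.mem_insert_of_mem hb))
    exact (NF.add h1 h2).congr (by intro x; rw [Finset.sum_insert ha])

theorem NF.shift {f G : ℤ → ℤ} (hf : NF f) (hG : NF G) (a : ℤ) :
    ∃ M0 : ℕ, ∀ M : ℕ, M0 ≤ M → NF (fun x => f (x - a * G x) + (M : ℤ) * G x) := by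
  induction hf with
  | lin v =>
    refine ⟨(v * a).toNat, fun M hM => ?_⟩
    have h1 : v * a ≤ M := by
      have := Int.self_le_toNat (v * a)
      have h2 : ((v * a).toNat : ℤ) ≤ M := by exact_mod_cast hM
      linarith
    obtain ⟨k, hk⟩ := Int.eq_ofNat_of_zero_le (show (0 : ℤ) ≤ M - v * a by linarith)
    refine (NF.add (NF.lin v) (hG.nsmul k)).congr ?_
    intro x
    have : (k : ℤ) = M - v * a := hk.symm
    simp only
    rw [this]; ring
  | @add f g hf hg h1 h2 =>
    obtain ⟨M1, h1⟩ := h1
    obtain ⟨M2, h2⟩ := h2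
    refine ⟨M1 + M2, fun M hM => ?_⟩
    have h3 := h1 M1 le_rfl
    have h4 := h2 (M - M1) (by omega)
    refine (NF.add h3 h4).congr ?_
    intro x
    have : ((M - M1 : ℕ) : ℤ) = (M : ℤ) - M1 := by
      rw [Nat.cast_sub (by omega)]
    simp only [this]; ring
  | @floor f b hb hf h =>
    obtain ⟨M1, h⟩ := h
    refine ⟨M1, fun M hM => ?_⟩
    have h3 := h (b * M) (le_trans hM (Nat.le_mul_of_pos_left M hb))
    refine (NF.floor b hb h3).congr ?_
    intro x
    have hb' : (b : ℤ) ≠ 0 := by exact_mod_cast hb.ne'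
    simp only
    have : f (x - a * G x) + ((b * M : ℕ) : ℤ) * G x = f (x - a * G x) + (b : ℤ) * ((M : ℤ) * G x) := by
      push_cast; ring
    rw [this, Int.add_mul_ediv_left _ _ hb']

/-- For a submonoid `T` of `ℕ` generated by the finite set `A` of positive numbers, every gap of
`T` is separated from `A` by a nested floor function. -/
theorem separate (A : Finset ℕ) (hA : ∀ a ∈ A, 0 < a) (g : ℕ)
    (hg : g ∉ AddSubmonoid.closure (A : Set ℕ)) :
    ∃ f : ℤ → ℤ, NF f ∧ (∀ a ∈ A, 0 ≤ f (a : ℤ)) ∧ f (g : ℤ) < 0 := by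
  induction g using Nat.strong_induction_on with
  | _ g ih =>
  -- first: for every generator `a`, a function counting `a` from below
  have key : ∀ a ∈ A, ∃ G : ℤ → ℤ, NF G ∧ G a = 1 ∧ (∀ a' ∈ A, 0 ≤ G (a' : ℤ)) ∧ G (g : ℤ) = 0 := by
    intro a ha
    have ha0 : 0 < a := hA a ha
    have step : ∀ j : ℕ, j ≤ g / a → ∃ G : ℤ → ℤ, NF G ∧ G a = 1 ∧ (∀ a' ∈ A, 0 ≤ G (a' : ℤ)) ∧
        G (g : ℤ) = ((g / a - j : ℕ) : ℤ) := by
      intro j
      induction j with
      | zero =>
        intro _
        refine ⟨fun x => x / (a : ℤ), ?_, ?_, ?_, ?_⟩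
        · exact ((NF.lin 1).floor a ha0).congr (by intro x; simp)
        · simp only
          exact Int.ediv_self (by exact_mod_cast ha0.ne')
        · intro a' _
          simp only
          positivity
        · simp
      | succ j ihj =>
        intro hj
        obtain ⟨G, hG, hGa, hGA, hGg⟩ := ihj (by omega)
        set k : ℕ := g / a - j with hk
        have hk1 : 1 ≤ k := by omega
        have hkg : k * a ≤ g := by
          have h1 : k ≤ g / a := by omega
          calc k * a ≤ (g / a) * a := Nat.mul_le_mul_right a h1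
            _ ≤ g := Nat.div_mul_le_self g a
        have hlt : g - k * a < g := by
          have : 0 < k * a := Nat.mul_pos hk1 ha0
          omega
        have hnot : g - k * a ∉ AddSubmonoid.closure (A : Set ℕ) := by
          intro hmem
          apply hg
          have h1 : k • a ∈ AddSubmonoid.closure (A : Set ℕ) :=
            AddSubmonoid.nsmul_mem _ (AddSubmonoid.subset_closure ha) k
          have h2 := AddSubmonoid.add_mem _ hmem h1
          rw [smul_eq_mul, Nat.sub_add_cancel hkg] at h2
          exact h2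
        obtain ⟨f, hf, hfA, hfg⟩ := ih _ hlt hnot
        obtain ⟨M0, hM0⟩ := hf.shift hG (a : ℤ)
        -- a large natural number
        set B : ℕ := ∑ a' ∈ A, (f ((a' : ℤ) - a * G a')).natAbs with hB
        set M : ℕ := M0 + B + (f ((g : ℤ) - k * a)).natAbs + 1 with hM
        have hMpos : 0 < M := by omega
        have hMz : (0 : ℤ) < M := by exact_mod_cast hMpos
        have hnf := hM0 M (by omega)
        refine ⟨fun x => (f (x - a * G x) + (M : ℤ) * G x) / (M : ℤ), hnf.floor M hMpos, ?_, ?_, ?_⟩
        · simp only [hGa]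
          have : f ((a : ℤ) - a * 1) = 0 := by
            rw [mul_one, sub_self]; exact hf.map_zero
          rw [this]; simp only [mul_one, zero_add]
          exact Int.ediv_self hMz.ne'
        · intro a' ha'
          simp only
          have h1 : 0 ≤ f ((a' : ℤ) - a * G a') + (M : ℤ) * G a' := by
            rcases (hGA a' ha').eq_or_lt with h0 | h0
            · rw [← h0]; simp only [mul_zero, sub_zero, add_zero]
              exact hfA a' ha'
            · have h2 : (f ((a' : ℤ) - a * G a')).natAbs ≤ B := by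
                rw [hB]
                exact Finset.single_le_sum (f := fun a' : ℕ => (f ((a' : ℤ) - a * G a')).natAbs)
                  (fun _ _ => Nat.zero_le _) ha'
              have h3 : -(M : ℤ) ≤ f ((a' : ℤ) - a * G a') := by
                have : (f ((a' : ℤ) - a * G a')).natAbs ≤ M := by omega
                omega
              have h4 : (M : ℤ) * 1 ≤ (M : ℤ) * G a' := by
                apply mul_le_mul_of_nonneg_left _ hMz.le
                omega
              linarith
          exact Int.ediv_nonneg h1 hMz.le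
        · simp only
          rw [hGg]
          have hcast : (g : ℤ) - a * ((k : ℕ) : ℤ) = ((g - k * a : ℕ) : ℤ) := by
            rw [Nat.cast_sub hkg]; push_cast; ring
          have hneg : f ((g : ℤ) - a * ((k : ℕ) : ℤ)) < 0 := by rw [hcast]; exact hfg
          have hge : -(M : ℤ) ≤ f ((g : ℤ) - a * ((k : ℕ) : ℤ)) := by
            have h5 : (f ((g : ℤ) - k * a)).natAbs ≤ M := by omega
            have h6 : (g : ℤ) - a * ((k : ℕ) : ℤ) = (g : ℤ) - k * a := by ring
            rw [h6]
            omega
          have h7 : (f ((g : ℤ) - a * ((k : ℕ) : ℤ)) + (M : ℤ) * ((k : ℕ) : ℤ)) / (M : ℤ)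
              = (k : ℤ) - 1 := by
            rw [Int.add_mul_ediv_left _ _ hMz.ne']
            have h8 : f ((g : ℤ) - a * ((k : ℕ) : ℤ)) / (M : ℤ) = -1 := by
              rw [Int.ediv_eq_iff_of_pos hMz]
              constructor <;> linarith
            rw [h8]; ring
          rw [h7]
          omega
    obtain ⟨G, h1, h2, h3, h4⟩ := step (g / a) le_rfl
    refine ⟨G, h1, h2, h3, ?_⟩
    rw [h4]; simp
  choose! G hG using key
  refine ⟨fun x => (∑ a ∈ A, (a : ℤ) * G a x) + (-1) * x, ?_, ?_, ?_⟩
  · exact NF.add (NF.sum A (fun a x => (a : ℤ) * G a x) (fun a ha => (hG a ha).1.nsmul a)) (NF.lin (-1))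
  · intro a ha
    have h1 : (a : ℤ) * G a a ≤ ∑ a' ∈ A, (a' : ℤ) * G a' a :=
      Finset.single_le_sum (f := fun a' : ℕ => (a' : ℤ) * G a' a)
        (fun a' ha' => mul_nonneg (by positivity) ((hG a' ha').2.2.1 a ha)) ha
    rw [(hG a ha).2.1] at h1
    simp only
    linarith
  · have h1 : ∑ a ∈ A, (a : ℤ) * G a g = 0 := by
      apply Finset.sum_eq_zero
      intro a ha
      rw [(hG a ha).2.2.2, mul_zero]
    simp only [h1]
    have hg0 : g ≠ 0 := by
      rintro rfl
      exact hg (AddSubmonoid.zero_mem _)
    have : (0 : ℤ) < g := by exact_mod_cast Nat.pos_of_ne_zero hg0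
    linarith

end Pool.Agent.TH235.CIQ
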